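import Mathlib
import Pool.Agent.N205.UR.Bridge
import Pool.Agent.N205.SG.Count

/-!
# Unramified cohomology in degree three: products of almost all abelian varieties of every Newton
stratum with all varieties

Let `g i` (`i` in a finite set `I`) be positive integers, `B` any number and `d` a number such that
either `d ≤ 2`, or `d ≤ g i` and `g i` is three or at least five, for all `i` (`DimsU`).  By Honda and
Tate the irreducible polynomials in `weilPolys (p ^ a) g` correspond to the isogeny classes of the
simple abelian varieties over the field with `q = p ^ a` elements whose field `ℚ (π)` has degree
`2 g`; the characteristic polynomial of the Frobenius is a power of the polynomial (the polynomial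
itself if `a = 1` or if the abelian variety is ordinary).

Let `S i` be a **stratum** (`IsStratum p a (g i) t (S i)`), for instance the set of the Weil
polynomials of degree `2 g i` whose Newton polygon is a given one, or lies on or above a given one,
or any set in between, or the set of the Weil polynomials of given `p`-rank. The parameter `t` may be
`a` if the `p`-rank is at least two, and any number `t ≤ a (1 - 2 λ) - 1` where `λ` is the first slope
(normalised so that the supersingular polygon has slope one half), see `StrataFacts`: so every
stratum except for the supersingular one is included as soon as `a (1 - 2 λ) ≥ 2`.

There is a constant `C`, depending only on `g`, `d` and `B`, such that the following holds.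

**(1)** For all families `f i` in `S i` with the exception of a proportion at most
`C (p ^ t) ^ (-1 / 6) log (p ^ t)`, the statement `HnrForIndep (p ^ a) f` holds: for all `s > 0`, all
abelian varieties `A` over the field `k` with `q ^ s` elements, isogenous to products of powers of
abelian varieties coming from the field with `q` elements whose characteristic polynomials are powers
of the `f i`, and **all** smooth projective varieties `Z` over `k` such that

* no power `α ^ N`, `N > 0`, of a root `α` of one of the `f i` is a product of powers (with positive
  or negative exponents) of `q` and of eigenvalues of Frobenius of `Z` (`Indep`),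
* homologically trivial self-correspondences of `A × Z` are nilpotent (this holds if the motive of `Z`
  is finite-dimensional in the sense of Kimura and O'Sullivan, for instance if `Z` is dominated by a
  product of curves),

one has **`H^3_nr(A × Z, ℚ/ℤ(2)) = H^3_nr(Z, ℚ/ℤ(2)) ⊕ (a finite group)`** (including the `p`-primary
parts), `CH^2(A × Z) = CH^2(Z) ⊕ (a finitely generated group)` and
`H^4_et(A × Z, ℤ(2)) = H^4_et(Z, ℤ(2)) ⊕ (a finitely generated group)`. In particular
`H^3_nr(A × Z, ℚ/ℤ(2))` is finite if and only if `H^3_nr(Z, ℚ/ℤ(2))` is finite. This is the case, for
instance, if `Z` is a point, a curve or a surface (then `H^3_nr(Z, ℚ/ℤ(2)) = 0` by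
Colliot-Thélène, Sansuc and Soulé), or a threefold dominated by a product of curves (Soulé;
Colliot-Thélène and Kahn). If moreover `H^4_et(Z, ℤ(2))` is finitely generated (which is known in these
cases) then for **all** smooth projective varieties `X` dominated by `A × Z` the group
`H^3_nr(X, ℚ/ℤ(2))` is finite and `CH^2(X)`, `H^4_et(X, ℤ(2))` are finitely generated.

The exceptional families do not depend on `Z`, not even on its dimension, and nothing is assumed about
algebraic cycles on `Z` (the Tate conjecture for `Z` is not known in general).

**(2)** Let `χ₀` be any rational polynomial of degree at most `B`, for instance the characteristic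
polynomial of Frobenius on the whole cohomology of a variety `Z₀` with total Betti number at most `B`.
With the exception of a proportion at most `C (p ^ t) ^ (-1 / 6) log (p ^ t)` of the families, **all**
varieties `Z` which are tame relative to `χ₀` are independent: this is the case if the eigenvalues of
Frobenius of `Z`, up to powers and up to a group of rank less than the `g i`, are products of rational
numbers, of roots of `χ₀` and of Weil numbers of degree less than `2 d` (`d ≥ 3`).

For example (`χ₀ = X - 1`, `d` the minimum of the `g i`): if the `g i` are three or at least five, then
for almost all families (1) applies to **all** varieties `Z` (with finite-dimensional motive), of any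
dimension, with all Betti numbers less than `2 d`, for instance to all products of curves of genus less
than `d`, and to the products of these with all varieties whose eigenvalues generate a group of rank
less than `d`. For arbitrary `g i` and `B`: for **every** variety `Z₀` with total Betti number at most
`B` over the field with `q` elements, almost all families are such that (1) applies to all powers of
`Z₀`, and to all varieties of Frobenius rank less than the `g i`.

The idea of the proof: by a sieve (helper521, helper484, and my modules SD, SG) almost all families in
a stratum are such that each pair `α`, `q / α` of roots can be exchanged by a Galois automorphism which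
fixes all the other roots of all the `f i`. So for independent `Z` the only Tate classes on `A × Z` are
sums of products of intersections of divisors on `A` with Tate classes on `Z`, and by nilpotence the
motive of `A × Z` with rational coefficients is the direct sum of Tate twists of the motive of `Z` and
of a motive on which the Frobenius endomorphism has no eigenvalue `Q ^ i`. New here is the passage to
integral coefficients: every theory with integral coefficients on which integral correspondences act
is considered through the rational theory formed by its sequences, tensored with `ℚ`; the Künneth
formula for this rational theory gives the Künneth formula for the integral theory up to a bounded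
denominator, for all elements of the theory at once. Only the twists by `0`, `1` and `2` contribute to
`H^4_et(A × Z, ℤ(2))`; the second and third contributions come from the finitely generated groups
`Pic(Z)` and `CH^0(Z)`, which consist of classes of cycles, so that they do not contribute to
`H^3_nr`. Up to isogeny nothing remains but `H^3_nr(Z)`, and since only finitely many elements of
`H^4_et(A × Z, ℤ(2))` are killed by a given number, the complements are finitely generated and finite.
-/

set_option autoImplicit false

namespace Pool.Agent.Results.MP_859dd5_ag.EveryVariety

open Polynomial Pool.Agent.N205.SG

open Pool.Agent.N205.UR (HnrForIndep)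

/-- `StrataFacts`: the sets of the Weil polynomials with given Newton polygon, or with Newton
polygon on or above a given one, and the sets of those of given `p`-rank, are strata. -/
theorem result :
    (∀ {I : Type} [Fintype I] (g : I → ℕ) (_ : ∀ i, 0 < g i) (d : ℕ) (_ : DimsU g d) (B : ℕ),
      ∃ C : ℝ, ∀ p a t : ℕ, p.Prime → 0 < a → 0 < t → ∀ S : I → Set ℤ[X],
        (∀ i, IsStratum p a (g i) t (S i)) →
        (∀ i, (S i).Finite ∧ (4 ^ g i ≤ p ^ t → (S i).Nonempty)) ∧
        ({f : I → ℤ[X] | (∀ i, f i ∈ S i) ∧ ¬ HnrForIndep (p ^ a) f}.ncard : ℝ) ≤
          C * (Real.log ((p ^ t : ℕ) : ℝ) * ((p ^ t : ℕ) : ℝ) ^ (-(1 / 6) : ℝ)) *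
            ∏ i, ((S i).ncard : ℝ) ∧
        ∀ χ₀ : ℚ[X], χ₀ ≠ 0 → χ₀.natDegree ≤ B →
          ({f : I → ℤ[X] | (∀ i, f i ∈ S i) ∧ ¬ TameIndep g d (p ^ a) χ₀ f}.ncard : ℝ) ≤
            C * (Real.log ((p ^ t : ℕ) : ℝ) * ((p ^ t : ℕ) : ℝ) ^ (-(1 / 6) : ℝ)) *
              ∏ i, ((S i).ncard : ℝ)) ∧
    StrataFacts :=
  ⟨fun g hg d hd B => indep_unif g hg d hd B (fun q f => HnrForIndep q f)
    fun _ hq x hx => Pool.Agent.N205.UR.hnr_indep g hg hq.one_lt x hx, strataFacts⟩

end Pool.Agent.Results.MP_859dd5_ag.EveryVariety
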