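import Pool.Agent.N876.NR3.Proof

/-!
# Finiteness of unramified cohomology of degree 3 for products with cyclic coverings branched along hyperplanes

Let `κ` be a finite field with `q = c ^ f` elements, and `𝒱` a class of smooth projective varieties over
`κ`, closed under products, with Chow groups `A` with rational coefficients and a Weil cohomology theory
`H` (framework of helper492 and helper484: `TheoryData`, `IsChow`, `IsWeil`). Let `X_i` be varieties in
`𝒱`, of any dimensions `n_i`, which are models of cyclic coverings

  `w ^ N_i = ∏ l_{i,k} (x) ^ a_{i,k}`

of projective spaces, branched along hyperplanes `l_{i,k} = 0` over `κ`, with exponents prime to `N_i`,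
where `N_i` divides `q - 1` (`IsModel`, see the definitions: the cohomology is generated by the
classes of cycles and a part `T`, pure of weight `n_i`, without invariants under the covering
group, for which the trace formula holds). Let `N` be a common multiple of the `N_i`, and `λ` an
integer such that `IsSmall N λ` holds: for every nonempty finite set `I` of indices and all `j_i` not
divisible by `N_i` (`i ∈ I`) there is a `u` prime to `N` with
`∑_{i ∈ I} weight X_i (u j_i) + λ / 2 < ∑_{i ∈ I} (n_i / 2 + 1)`; here `weight X j` is the mean over the
orbit `j, c j, …, c ^ (f - 1) j` of the sum of the fractional parts of `j a_k / N_i`.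

Let `U` be **any** smooth projective variety over `κ`, and `Z` a variety in `𝒱` (for example a point); we
take for `𝒱` a class of geometrically connected varieties. For `X` in `𝒱` let
* `G X n = H^{2n}_et(X × U, ℤ(n))` (étale motivic cohomology, the Lichtenbaum Chow groups of `X × U`),
* `Q X n` the quotient modulo the image of `CH^n(X × U)`. So
  **`Q X 2 = H^3_nr(X × U, ℚ/ℤ(2))`**, and the kernel of `G X 2 → Q X 2` is `CH^2(X × U)`, by the exact
  sequence `0 → CH^2 → H^4_et(ℤ(2)) → H^3_nr(ℚ/ℤ(2)) → 0` of Lichtenbaum and Kahn,
* `T^n(X) = CH^n(X × U) ⊗ ℚ = G X n ⊗ ℚ`, and `φ` the Frobenius endomorphism of `U` on `T`.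
The following facts are known and enter as hypotheses (`IsUnramified`, `IsRelative`): the kernels of
`G X n → T^n(X)` are finite (they are quotients of `H^{2n-1}_et(X × U, ℚ/ℤ(n))`: Colliot-Thélène,
Sansuc, Soulé, Milne), `Q X n` is a torsion group, `G X n` is finitely generated for `n ≤ 1` (it is
`Pic (X × U)` for `n = 1`), a multiple of each correspondence between `X` and `Y` operates on
`G` and `Q`, the pullback `G Y n → G (X × Y) n` is compatible with the one for `T` and has a left inverse,
given by a zero cycle of degree one on `X` (theorem of Lang and Weil), and the product of `φ` and the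
Frobenius endomorphism of `X` is `q ^ n` on `T^n(X)`. Let `χ` be a polynomial
with rational coefficients which is satisfied by `φ`. Such a polynomial exists if the motive of `U` is
finite-dimensional. We assume that the products `b` of the eigenvalues of the Frobenius on `H(Z)` and
the complex roots of `χ` are of the form `|b| ^ 2 = q ^ j` (theorem of Deligne) and that
* either `λ = 0` and the cyclotomic polynomial of order `N` is irreducible over the field generated by
  the numbers `b` (for given `Z` and `U` this is true for all `N` prime to the discriminant of this field),
* or `Z × U` is of level `≤ λ`: the numbers `q ^ λ b / b̄` are algebraic integers. This is true if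
  `dim Z + dim U ≤ λ`.
Finally the homologically trivial self-correspondences of degree zero of the products `V` of the `X_i`
and `Z` are assumed to be nilpotent (nothing of this kind is assumed for `U`); this holds if `Z` is a
point (or dominated by a product of curves) and the `X_i` are curves or have `n_i + 2` branch
hyperplanes in general position, by the theorem of Kimura and O'Sullivan.

**Theorem.** Let `V` be the product of `Z` and of finitely many of the `X_i` (pairwise different). Then
* **`H^3_nr(V × U, ℚ/ℤ(2))` is the direct sum of `H^3_nr(Z × U, ℚ/ℤ(2))` and of a finite group;**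
* `H^4_et(V × U, ℤ(2))` is the direct sum of `H^4_et(Z × U, ℤ(2))` and of a finitely generated group;
* `CH^2(V × U)` is the direct sum of `CH^2(Z × U)` and of a finitely generated group.

So **Q1 for `V × U` is equivalent to Q1 for `Z × U`**. If `Z` is a point, Q1 for `V × U` is equivalent to
Q1 for `U`, for every `U`; in particular **`H^3_nr(V × U, ℚ/ℤ(2))` is finite for all curves and
surfaces `U`** with a polynomial `χ` as above (`H^3_nr(U, ℚ/ℤ(2)) = 0` for them, Colliot-Thélène, Sansuc,
Soulé and Kato). The conjecture of Tate is assumed neither for `V` nor for `U`.

Examples. (a) Let `X_i` be curves `y ^ N_i = ∏ (x - x_{i,k})` with `N_i` factors, of genus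
`(N_i - 1) (N_i - 2) / 2`, for different prime numbers `N_i` dividing `c - 1`. Then `weight X_i j` is the
residue of `j` modulo `N_i`, and `IsSmall N 0` holds for the product `N` of the `N_i` (take `u` with
`u j_i = 1` modulo `N_i`). (b) Let `X` be the variety `w ^ N = l_1 ⋯ l_N` of dimension `n = N - 2`, with
`N` hyperplanes in general position, for a prime number `N` dividing `c - 1` (the resolutions are
Calabi-Yau varieties). The weight for `u j = 1` is `1`, so `IsSmall N λ` holds for all `λ < n`: the
theorem applies to **all smooth projective varieties `U` of dimension smaller than `dim X`** with a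
polynomial `χ`.

The proof: by the theorem of Stickelberger on Gauss sums and the product formula no product of
eigenvalues of the Frobenius on the parts `T` of several `X_i` and on the cohomology of `Z × U` is a
power of `q`. So the intersection pairing on the algebraic classes of `X_i` is not degenerate; let
`D j`, `E j` be dual systems of cycles on `X_i`, `p = ∑ E j × D j` the projector on `X_i × V'`, `P` a
polynomial with `P (F) H(X_i × V') ⊆ ∑ D j × H(V')`, and `Q (x)` the polynomial with the roots `q ^ a / ρ`,
where `χ (ρ) = 0`. Then `(1 - p) P (F)` is homologically trivial, hence nilpotent; a power of `Q (F)`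
is zero on `T^a(X_i × V')`, and `P` and `Q` are prime to each other, so `1 - p` is zero on
`T^a(X_i × V')` (the idea to play the eigenvalues of Frobenius off against nilpotence is due to Soulé,
Geisser and Kahn). So a multiple of each element of `G (X_i × V') 2` is a sum of products of the `D j`
with elements of `G V' (2 - deg j)`; the cycles of degree zero contribute the pullback of `G V' 2`,
the others finitely generated groups. So the kernel `K` of the left inverse `G (X_i × V') 2 → G V' 2`
of the pullback has a finitely generated subgroup which contains all multiples `m x` for one
`m > 0`. Since the torsion of `K` is finite, `K` is finitely generated. The kernel of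
`Q (X_i × V') 2 → Q V' 2` is a quotient of `K` and a torsion group, hence finite.

helper876; built on the library of the starting files (estimates of sums over hyperplane
arrangements by Gauss sums: helper528 and helpers 800, 883, 135, 563, 271, 540, 400, 999, 782, 605,
346; traces on eigenspaces: helper117; correspondences, nilpotence and the Kunneth formula: helpers
484, 492, 550; the idea to work relative to a scheme: helper156).
-/

set_option autoImplicit false

open Polynomial CategoryTheory AlgebraicGeometry

namespace Pool.Agent.Results.MP_859dd5_ag.HyperplaneCoverings

open Pool.Agent.H914 Pool.Agent.H914.VarClass Pool.Agent.H914.VarClass.Obj Pool.Agent.W492.BB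
  Pool.Agent.W484.CK Pool.Agent.N876.NR3

/-- **Finiteness of unramified cohomology of degree 3 for products with cyclic coverings branched along
hyperplanes.** -/
theorem result (c : ℕ) [Fact c.Prime] (κ : Type) [Field κ] [Fintype κ] [CharP κ c] {ι : Type}
    (C : ι → Covering κ) (f N lam : ℕ) (hC : IsSmallSystem C c f N lam)
    {𝒱 : VarClass κ} (A : TheoryData.{0, 0, 0} 𝒱 ℚ) [IsChow A] {K : Type} [Field K]
    [IsAlgClosed K] [CharZero K] (H : WeilTheoryData.{0, 0, 0} A K) [IsWeil H] (τ : K →+* ℂ)
    (F : ∀ X : 𝒱.Obj, X ⟶ X) (X : ι → 𝒱.Obj) (Z : 𝒱.Obj) (χ : ℚ[X])
    (h : IsCoveringSystem C N lam H τ F X Z χ) (hnil : ∀ L, Nilpotence H (productOf X Z L))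
    (T : MotivicData A) (φ : ∀ X, T.M X →ₗ[ℚ] T.M X)
    (hT : IsRelative T φ F (Fintype.card κ) χ) {G Q : 𝒱.Obj → ℤ → Type}
    [∀ X n, AddCommGroup (G X n)] [∀ X n, AddCommGroup (Q X n)] (π : ∀ X n, G X n →+ Q X n)
    (r : ∀ X n, G X n → T.M X) (hG : IsUnramified T π r) (L : List ι) (hL : L.Nodup) :
    Conclusions π (productOf X Z L) Z :=
  main c κ C f N lam hC A H τ F X Z χ h hnil T φ hT π r hG L hL

end Pool.Agent.Results.MP_859dd5_ag.HyperplaneCoverings
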